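import Pool.Agent.helper23.CS.Spec

/-! # cs:REX (helper49): the random cluster expansion -/

set_option autoImplicit false

open Finset

namespace CS

theorem REX_edge {V ι : Type} (G : MG V ι) (b : ℝ) (e : ι) (σ : V → Bool) :
    Real.exp (b * mm G e σ) =
      Real.exp b * ((1 - Real.exp (-2 * b)) * dd G e σ + Real.exp (-2 * b)) := by
  have h2 : Real.exp b * Real.exp (-2 * b) = Real.exp (-b) := by
    rw [← Real.exp_add]; congr 1; ring
  by_cases h : σ (G.s e) = σ (G.t e)
  · have hd : dd G e σ = 1 := by simp [dd, ind, h]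
    have hm : mm G e σ = 1 := by
      unfold mm
      rw [h]
      cases σ (G.t e) <;> simp [CU.sg]
    rw [hd, hm]
    simp
  · have hd : dd G e σ = 0 := by simp [dd, ind, h]
    have hm : mm G e σ = -1 := by
      unfold mm
      revert h
      cases σ (G.s e) <;> cases σ (G.t e) <;> simp [CU.sg]
    rw [hd, hm, mul_zero, zero_add, h2]
    congr 1
    ring

theorem REX : REX_stmt := by
  intro V ι _ _ _ G b E f
  have key : ∀ σ : V → Bool, Real.exp (b * ∑ e ∈ E, mm G e σ) = Real.exp (b * E.card) *
      ∑ ω ∈ E.powerset, (1 - Real.exp (-2 * b)) ^ ω.card * Real.exp (-2 * b) ^ (E \ ω).card *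
        ∏ e ∈ ω, dd G e σ := by
    intro σ
    rw [Finset.mul_sum, Real.exp_sum, Finset.prod_congr rfl (fun e _ => REX_edge G b e σ),
      Finset.prod_mul_distrib, Finset.prod_const, Finset.prod_add]
    have h1 : Real.exp b ^ E.card = Real.exp (b * E.card) := by
      rw [mul_comm b, Real.exp_nat_mul]
    rw [h1]
    congr 1
    refine Finset.sum_congr rfl (fun ω _ => ?_)
    rw [Finset.prod_mul_distrib, Finset.prod_const, Finset.prod_const]
    ring
  unfold Zf KK
  simp_rw [key, Finset.mul_sum, Finset.sum_mul]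
  rw [Finset.sum_comm]
  refine Finset.sum_congr rfl (fun ω _ => ?_)
  refine Finset.sum_congr rfl (fun σ _ => ?_)
  ring

end CS
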